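import Pool.Agent.TH768.DG.Main

/-!
# The powers of `e`
-/

set_option autoImplicit false

namespace Pool.Agent.TH768.DG

open Finset Pool.Agent.W472.AC

/-- a measure of linear independence for `e^(κ_0), …, e^(κ_n)`, the `κ_i` distinct integers -/
theorem meas_exp {n : ℕ} (κ : Fin (n + 1) → ℤ) (hκ : Function.Injective κ) (η : ℝ) (hη : 0 < η) :
    ∃ c : ℝ, 0 < c ∧ Meas (fun i => Real.exp (κ i)) (n + η) c := by
  classical
  obtain ⟨i0, -, hi0⟩ := Finset.exists_min_image univ κ ⟨0, mem_univ _⟩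
  obtain ⟨c, hc, hM⟩ := e_meas n (fun i => κ (Equiv.swap 0 i0 i) - κ i0) (fun i j hij => by
    have h1 : κ (Equiv.swap 0 i0 i) = κ (Equiv.swap 0 i0 j) := by
      have := hij
      simp only at this
      omega
    exact (Equiv.swap 0 i0).injective (hκ h1)) (by simp)
    (fun i => by
      have := hi0 (Equiv.swap 0 i0 i) (mem_univ _)
      omega) η hη
  refine ⟨Real.exp (κ i0) * c, by positivity, fun a ha H hH haH => ?_⟩
  have h1 := hM (fun i => a (Equiv.swap 0 i0 i)) (fun h0 => ha (by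
    funext i
    have := congrFun h0 (Equiv.swap 0 i0 i)
    simpa using this)) H hH (fun j => haH _)
  have h2 : ∑ j, (a j : ℝ) * Real.exp (κ j) =
      Real.exp (κ i0) * ∑ j, (a (Equiv.swap 0 i0 j) : ℝ) *
        Real.exp (((κ (Equiv.swap 0 i0 j) - κ i0 : ℤ) : ℝ)) := by
    rw [Finset.mul_sum, ← Equiv.sum_comp (Equiv.swap 0 i0)]
    refine Finset.sum_congr rfl fun j _ => ?_
    rw [Int.cast_sub, Real.exp_sub]
    field_simp
  rw [h2, abs_mul, abs_of_pos (Real.exp_pos _)]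
  have h3 := mul_le_mul_of_nonneg_left h1 (Real.exp_pos (κ i0 : ℝ)).le
  calc Real.exp (κ i0) * c ≤ Real.exp (κ i0) * (H ^ ((n : ℝ) + η) *
        |∑ j, (a (Equiv.swap 0 i0 j) : ℝ) *
          Real.exp (((κ (Equiv.swap 0 i0 j) - κ i0 : ℤ) : ℝ))|) := h3
    _ = _ := by ring

/-- the powers of `e` -/
theorem normal_exp {n : ℕ} (κ : Fin n → ℤ) (hκ : Function.Injective κ) (h0 : ∀ j, κ j ≠ 0) :
    NormalMeasure (fun j => Real.exp (κ j)) := by
  intro η hη
  obtain ⟨c, hc, hM⟩ := meas_exp (Fin.cons 0 κ : Fin (n + 1) → ℤ) (by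
    rw [Fin.cons_injective_iff]
    exact ⟨fun ⟨j, hj⟩ => h0 j hj, hκ⟩) η hη
  refine ⟨c, hc, fun u v huv H hH hu hv => ?_⟩
  have h1 := hM (Fin.cons u v) (fun h => by
    rcases huv with h2 | h2
    · exact h2 (congrFun h 0)
    · exact h2 (funext fun s => congrFun h s.succ)) H hH (fun j => by
      refine Fin.cases ?_ (fun s => ?_) j
      · exact hu
      · exact hv s)
  rw [Fin.sum_univ_succ] at h1
  simpa using h1

end Pool.Agent.TH768.DG
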