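import Pool.Agent.TH768.DG.Main
import Pool.Agent.W472.AC.AlgNum

/-!
# Real number fields
-/

set_option autoImplicit false

namespace Pool.Agent.TH768.DG

open Finset Module Pool.Agent.W472.AC IntermediateField Polynomial

/-- a basis of a real number field -/
theorem field_meas (K : IntermediateField ℚ ℝ) [FiniteDimensional ℚ K] {n : ℕ}
    (hK : finrank ℚ K = n + 1) (x : Fin n → ℝ) (hxK : ∀ s, x s ∈ K)
    (hli : LinearIndependent ℚ (Fin.cons 1 x : Fin (n + 1) → ℝ)) :
    ∃ c : ℝ, 0 < c ∧ MeasL x n c := by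
  obtain ⟨c, hc, h⟩ := field_measL K x hxK hli
  rw [hK] at h
  have e : (((n + 1 : ℕ) : ℝ) - 1) = n := by push_cast; ring
  rw [e] at h
  exact ⟨c, hc, h⟩

lemma normal_of_meas {n : ℕ} (x : Fin n → ℝ) {c : ℝ} (hc : 0 < c) (h : MeasL x n c) :
    NormalMeasure x := fun η hη => ⟨c, hc, fun u v huv H hH hu hv =>
  (h u v huv H hH hu hv).trans (mul_le_mul_of_nonneg_right
    (Real.rpow_le_rpow_of_exponent_le hH (by linarith)) (abs_nonneg _))⟩

/-- The lower bound with the optimal exponent. -/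
theorem lower_field {n : ℕ} (hn : 1 ≤ n) (x : Fin n → ℝ) {c : ℝ} (hc : 0 < c)
    (h : MeasL x n c) :
    ∃ C : ℝ, 0 < C ∧ ∀ b : ℕ, 2 ≤ b → ∀ k L : ℕ,
      (L : ℝ) ≤ ((n : ℝ) + 1) * ((1 + 1 / n) ^ (k + 1) - 1) *
        (commonOrder b x k L + C * Real.sqrt (((commonOrder b x k L : ℝ) + 1) *
          Real.log ((commonOrder b x k L : ℝ) + 2))) := by
  obtain ⟨C, hC0, hC⟩ := lower hn x n c le_rfl hc h
  refine ⟨C, hC0, fun b hb k L => ?_⟩
  have h1 := hC b hb k L
  have hn0 : (0 : ℝ) < n := by exact_mod_cast hn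
  have e : ((n : ℝ) + 1) / n = 1 + 1 / n := by field_simp
  rw [e, geomSum n k hn] at h1
  exact h1

/-- The degree of `2 ^ (1/m)`. -/
theorem degree_root {m : ℕ} (hm : 1 ≤ m) (α : ℝ) (hα : α ^ m = 2) :
    (minpoly ℚ α).natDegree = m := by
  have hZ : Irreducible (X ^ m - C (2 : ℤ)) := by
    have hmon : (X ^ m - C (2 : ℤ)).Monic := monic_X_pow_sub_C 2 (by omega)
    have hP : (Ideal.span {(2 : ℤ)}).IsPrime := by
      rw [Ideal.span_singleton_prime (by norm_num)]
      exact Int.prime_two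
    refine irreducible_of_eisenstein_criterion hP ?_ ?_ ?_ ?_ hmon.isPrimitive
    · rw [hmon.leadingCoeff, Ideal.mem_span_singleton]
      norm_num
    · intro k hk
      rw [degree_X_pow_sub_C (by omega)] at hk
      have hk' : k < m := by exact_mod_cast hk
      rw [coeff_sub, coeff_X_pow, if_neg (by omega), coeff_C, Ideal.mem_span_singleton]
      split_ifs <;> norm_num
    · rw [degree_X_pow_sub_C (by omega)]
      exact_mod_cast hm
    · rw [coeff_sub, coeff_X_pow, if_neg (by omega), coeff_C_zero, Ideal.span_singleton_pow,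
        Ideal.mem_span_singleton]
      norm_num
  have hQ : Irreducible (X ^ m - C (2 : ℚ)) := by
    have hmon : (X ^ m - C (2 : ℤ)).Monic := monic_X_pow_sub_C 2 (by omega)
    have h1 := (IsPrimitive.Int.irreducible_iff_irreducible_map_cast hmon.isPrimitive).1 hZ
    have e : (X ^ m - C (2 : ℤ)).map (Int.castRingHom ℚ) = X ^ m - C (2 : ℚ) := by
      rw [Polynomial.map_sub, Polynomial.map_pow, map_X, map_C]
      simp
    rwa [e] at h1
  have hmon : (X ^ m - C (2 : ℚ)).Monic := monic_X_pow_sub_C 2 (by omega)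
  have h2 : minpoly ℚ α = X ^ m - C (2 : ℚ) := by
    symm
    apply minpoly.eq_of_irreducible_of_monic hQ _ hmon
    simp [hα]
  rw [h2, natDegree_X_pow_sub_C]

/-- powers of a real algebraic number -/
theorem powers_meas (α : ℝ) (n : ℕ) (hα : (minpoly ℚ α).natDegree = n + 1) :
    ∃ c : ℝ, 0 < c ∧ MeasL (fun j : Fin n => α ^ ((j : ℕ) + 1)) n c := by
  have hint : IsIntegral ℚ α := by
    by_contra h
    rw [minpoly.eq_zero h, natDegree_zero] at hα
    omega
  have : FiniteDimensional ℚ ℚ⟮α⟯ := adjoin.finiteDimensional hint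
  have hfin : finrank ℚ ℚ⟮α⟯ = n + 1 := by rw [adjoin.finrank hint, hα]
  have hli : LinearIndependent ℚ (fun j : Fin (n + 1) => α ^ (j : ℕ)) := by
    rw [← hα]; exact linearIndependent_pow α
  refine field_meas ℚ⟮α⟯ hfin _ (fun s => pow_mem (mem_adjoin_simple_self ℚ α) _) ?_
  have e : (Fin.cons 1 (fun j : Fin n => α ^ ((j : ℕ) + 1)) : Fin (n + 1) → ℝ) =
      fun j : Fin (n + 1) => α ^ (j : ℕ) := by
    funext j
    refine Fin.cases ?_ (fun s => ?_) j
    · simp
    · simp
  rw [e]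
  exact hli

end Pool.Agent.TH768.DG
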