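import Pool.Agent.TH768.DG.Trans

/-!
# Common linear recurrences of the digits of several numbers
-/

set_option autoImplicit false

namespace Pool.Agent.TH768.DG

open Finset Polynomial Filter

/-- the `i`-th digit of `x` after the point in base `b` -/
noncomputable def digit (b : ℕ) (x : ℝ) (i : ℕ) : ℤ := ⌊x * (b : ℝ) ^ i⌋ % (b : ℤ)

/-- The terms `1, …, L` of the sequences `s_1, …, s_n` satisfy one common linear recurrence of
order `m` over `ℚ`: `s_j(i+m) = c_0 s_j(i) + … + c_(m-1) s_j(i+m-1)` for all `j` and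
`1 ≤ i ≤ L - m`, with the same coefficients for all `j`. -/
def CommonRecurrence {n : ℕ} (s : Fin n → ℕ → ℤ) (L m : ℕ) : Prop :=
  ∃ c : ℕ → ℚ, ∀ (j : Fin n) (i : ℕ), 1 ≤ i → i + m ≤ L →
    (s j (i + m) : ℚ) = ∑ l ∈ range m, c l * (s j (i + l) : ℚ)

/-- The least order of a common linear recurrence which is satisfied by the first `L` digits of
`x_1, …, x_n` in base `b` after changes in at most `k` of the places `1, …, L` (in each of these
places the digits of all the `n` numbers may be replaced by integers between `-b` and `b`). -/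
noncomputable def commonOrder (b : ℕ) {n : ℕ} (x : Fin n → ℝ) (k L : ℕ) : ℕ :=
  sInf {m | ∃ s : Fin n → ℕ → ℤ, (∀ j i, |s j i| ≤ b) ∧
    ((Icc 1 L).filter fun i => ∃ j, s j i ≠ digit b (x j) i).card ≤ k ∧ CommonRecurrence s L m}

/-- `1, x_1, …, x_n` are as linearly independent over `ℤ` as random numbers, up to small powers of
the height. -/
def NormalMeasure {n : ℕ} (x : Fin n → ℝ) : Prop :=
  ∀ η : ℝ, 0 < η → ∃ c : ℝ, 0 < c ∧ Pool.Agent.W472.AC.MeasL x (n + η) c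

lemma digit_abs (b : ℕ) (hb : 2 ≤ b) (x : ℝ) (i : ℕ) : |digit b x i| ≤ b := by
  unfold digit
  have hb0 : (0 : ℤ) < b := by exact_mod_cast (by omega : 0 < b)
  rw [abs_of_nonneg (Int.emod_nonneg _ hb0.ne')]
  exact (Int.emod_lt_of_pos _ hb0).le

/-- the digits themselves -/
lemma commonOrder_le {b : ℕ} (hb : 2 ≤ b) {n : ℕ} (x : Fin n → ℝ) (k L m : ℕ)
    (h : CommonRecurrence (fun j i => digit b (x j) i) L m) : commonOrder b x k L ≤ m :=
  Nat.sInf_le ⟨_, fun j i => digit_abs b hb (x j) i, by simp, h⟩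

lemma commonOrder_le_self {b : ℕ} (hb : 2 ≤ b) {n : ℕ} (x : Fin n → ℝ) (k L : ℕ) :
    commonOrder b x k L ≤ L :=
  commonOrder_le hb x k L L ⟨fun _ => 0, fun j i h1 h2 => by omega⟩

/-- the infimum is attained -/
lemma attained {b : ℕ} (hb : 2 ≤ b) {n : ℕ} (x : Fin n → ℝ) (k L : ℕ) :
    ∃ s : Fin n → ℕ → ℤ, (∀ j i, |s j i| ≤ b) ∧
      ((Icc 1 L).filter fun i => ∃ j, s j i ≠ digit b (x j) i).card ≤ k ∧
      CommonRecurrence s L (commonOrder b x k L) := by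
  refine Nat.sInf_mem (s := {m | ∃ s : Fin n → ℕ → ℤ, (∀ j i, |s j i| ≤ b) ∧
    ((Icc 1 L).filter fun i => ∃ j, s j i ≠ digit b (x j) i).card ≤ k ∧
      CommonRecurrence s L m}) ?_
  exact ⟨L, fun j i => digit b (x j) i, fun j i => digit_abs b hb (x j) i, by simp,
    fun _ => 0, fun j i h1 h2 => by omega⟩

/-- **Lower bound.** -/
theorem lower {n : ℕ} (hn : 1 ≤ n) (x : Fin n → ℝ) (w c : ℝ) (hw : (n : ℝ) ≤ w) (hc : 0 < c)
    (hx : Pool.Agent.W472.AC.MeasL x w c) :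
    ∃ C : ℝ, 0 < C ∧ ∀ b : ℕ, 2 ≤ b → ∀ k L : ℕ,
      (L : ℝ) ≤ (∑ i ∈ range (k + 1), ((w + 1) / n) ^ (i + 1)) *
        (commonOrder b x k L + C * Real.sqrt (((commonOrder b x k L : ℝ) + 1) *
          Real.log ((commonOrder b x k L : ℝ) + 2))) := by
  obtain ⟨c', hc', hM⟩ := transfer hn x w c hw hc hx
  have hn0 : (0 : ℝ) < n := by exact_mod_cast hn
  obtain ⟨C, hC0, hC⟩ := Pool.Agent.W47.JL.generalT n x ((w + 1) / n) c' 0
    (by rw [lt_div_iff₀ hn0]; linarith) hc' le_rfl hM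
  refine ⟨C, hC0, fun b hb k L => ?_⟩
  obtain ⟨s, hs, hE, c0, hc0⟩ := attained hb x k L
  refine hC b hb L (commonOrder b x k L) k (fun j i => s j (i + 1)) (fun j i _ => hs j _)
    ⟨((Icc 1 L).filter fun i => ∃ j, s j i ≠ digit b (x j) i).image (· - 1),
      Finset.card_image_le.trans hE, fun i hi hiE j => by
        by_contra hne
        apply hiE
        rw [mem_image]
        exact ⟨i + 1, by
          rw [mem_filter, mem_Icc]
          exact ⟨⟨by omega, by omega⟩, ⟨j, hne⟩⟩, by omega⟩⟩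
    ⟨c0, fun j i hi => by
      have := hc0 j (i + 1) (by omega) (by omega)
      rw [show i + commonOrder b x k L + 1 = i + 1 + commonOrder b x k L by ring, this]
      refine Finset.sum_congr rfl fun l _ => ?_
      rw [show i + l + 1 = i + 1 + l by ring]⟩

lemma err_small (δ : ℝ) (hδ : 0 < δ) (m : ℕ) :
    Real.sqrt (((m : ℝ) + 1) * Real.log ((m : ℝ) + 2)) ≤ δ * m + (2 * δ + 1 / (2 * δ ^ 3)) := by
  have hm : (0 : ℝ) ≤ m := Nat.cast_nonneg m
  have h1 : Real.log ((m : ℝ) + 2) ≤ δ ^ 2 * (m + 2) + 1 / δ ^ 2 := by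
    have h2 : Real.log ((m : ℝ) + 2) = 2 * Real.log (Real.sqrt (m + 2)) := by
      rw [Real.log_sqrt (by linarith)]
      ring
    have h3 : Real.log (Real.sqrt ((m : ℝ) + 2)) ≤ Real.sqrt (m + 2) := by
      have := Real.log_le_sub_one_of_pos (Real.sqrt_pos.2 (by linarith : (0 : ℝ) < m + 2))
      linarith
    have h4 : 2 * Real.sqrt ((m : ℝ) + 2) ≤ δ ^ 2 * (m + 2) + 1 / δ ^ 2 := by
      have h5 : 0 ≤ (δ * Real.sqrt ((m : ℝ) + 2) - 1 / δ) ^ 2 := sq_nonneg _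
      have h6 : (δ * Real.sqrt ((m : ℝ) + 2) - 1 / δ) ^ 2 =
          δ ^ 2 * Real.sqrt ((m : ℝ) + 2) ^ 2 + 1 / δ ^ 2 - 2 * Real.sqrt ((m : ℝ) + 2) := by
        field_simp
        ring
      rw [h6, Real.sq_sqrt (by linarith)] at h5
      linarith
    linarith
  apply Real.sqrt_le_iff.2
  refine ⟨by positivity, ?_⟩
  have h7 : ((m : ℝ) + 1) * Real.log ((m : ℝ) + 2) ≤
      (m + 1) * (δ ^ 2 * (m + 2) + 1 / δ ^ 2) := mul_le_mul_of_nonneg_left h1 (by linarith)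
  refine h7.trans ?_
  have h8 : (δ * m + (2 * δ + 1 / (2 * δ ^ 3))) ^ 2 =
      δ ^ 2 * (m + 2) ^ 2 + (m + 2) * (1 / δ ^ 2) + (1 / (2 * δ ^ 3)) ^ 2 := by
    field_simp
    ring
  rw [h8]
  have h9 : 0 ≤ 1 / δ ^ 2 := by positivity
  have h10 : 0 ≤ (1 / (2 * δ ^ 3)) ^ 2 := by positivity
  have h11 : (0 : ℝ) ≤ δ ^ 2 := by positivity
  nlinarith [mul_nonneg h11 hm]

lemma geomSum (n k : ℕ) (hn : 1 ≤ n) :
    ∑ i ∈ range (k + 1), (1 + 1 / (n : ℝ)) ^ (i + 1) = (n + 1) * ((1 + 1 / n) ^ (k + 1) - 1) := by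
  have hn0 : (0 : ℝ) < n := by exact_mod_cast hn
  induction k with
  | zero => simp; field_simp
  | succ k ih =>
    rw [Finset.sum_range_succ, ih, pow_succ (1 + 1 / (n : ℝ)) (k + 1)]
    field_simp
    ring

/-- **Asymptotic lower bound.** -/
theorem lower_asymp {n : ℕ} (hn : 1 ≤ n) (x : Fin n → ℝ) (hx : NormalMeasure x) (k : ℕ) (ε : ℝ)
    (hε : 0 < ε) : ∃ L₀ : ℕ, ∀ L : ℕ, L₀ ≤ L → ∀ b : ℕ, 2 ≤ b →
      (1 / (((n : ℝ) + 1) * ((1 + 1 / n) ^ (k + 1) - 1)) - ε) * L ≤ commonOrder b x k L := by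
  have hn0 : (0 : ℝ) < n := by exact_mod_cast hn
  rw [← geomSum n k hn]
  set F : ℝ → ℝ := fun t => 1 / ((∑ i ∈ range (k + 1), ((n + t + 1) / n) ^ (i + 1)) * (1 + t))
    with hF
  have hF0 : F 0 = 1 / (∑ i ∈ range (k + 1), (1 + 1 / (n : ℝ)) ^ (i + 1)) := by
    simp only [hF, add_zero, mul_one]
    congr 1
    refine Finset.sum_congr rfl fun i _ => ?_
    congr 1
    field_simp
  have hS0 : ∀ t : ℝ, 0 ≤ t → 1 ≤ ∑ i ∈ range (k + 1), (((n : ℝ) + t + 1) / n) ^ (i + 1) := by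
    intro t ht
    have h1 : 1 ≤ ((n : ℝ) + t + 1) / n := by
      rw [le_div_iff₀ hn0]; linarith
    calc (1 : ℝ) ≤ (((n : ℝ) + t + 1) / n) ^ (0 + 1) := one_le_pow₀ h1
      _ ≤ ∑ i ∈ range (k + 1), (((n : ℝ) + t + 1) / n) ^ (i + 1) :=
        Finset.single_le_sum (f := fun i => (((n : ℝ) + t + 1) / n) ^ (i + 1))
          (fun i _ => by positivity) (Finset.mem_range.2 (Nat.succ_pos k))
  have hcont : ContinuousAt F 0 := by
    apply ContinuousAt.div continuousAt_const (by fun_prop)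
    have := hS0 0 le_rfl
    have h2 : 0 < (∑ i ∈ range (k + 1), (((n : ℝ) + 0 + 1) / n) ^ (i + 1)) * (1 + 0) := by
      nlinarith
    exact h2.ne'
  have hev : ∀ᶠ t in nhds (0 : ℝ), F 0 - ε / 2 < F t := hcont.eventually (lt_mem_nhds (by linarith))
  obtain ⟨t, ht, ht0⟩ := ((hev.filter_mono nhdsWithin_le_nhds).and
    (self_mem_nhdsWithin : Set.Ioi (0 : ℝ) ∈ nhdsWithin (0 : ℝ) (Set.Ioi 0))).exists
  obtain ⟨c, hc, hM⟩ := hx t ht0
  obtain ⟨C, hC0, hC⟩ := lower hn x (n + t) c (by linarith) hc hM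
  set S : ℝ := ∑ i ∈ range (k + 1), (((n : ℝ) + t + 1) / n) ^ (i + 1) with hS
  have hS1 : 1 ≤ S := hS0 t ht0.le
  set δ : ℝ := t / C with hδ
  have hδ0 : 0 < δ := by positivity
  set D : ℝ := C * (2 * δ + 1 / (2 * δ ^ 3)) with hD
  have hD0 : 0 < D := by positivity
  obtain ⟨L₀, hL₀⟩ := exists_nat_gt (2 * D / ε)
  refine ⟨L₀, fun L hL b hb => ?_⟩
  have h1 := hC b hb k L
  have h2 := err_small δ hδ0 (commonOrder b x k L)
  set E : ℝ := (commonOrder b x k L : ℝ) with hE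
  have hE0 : 0 ≤ E := Nat.cast_nonneg _
  have h3 : (L : ℝ) ≤ S * ((1 + t) * E + D) := by
    refine h1.trans (mul_le_mul_of_nonneg_left ?_ (by linarith))
    have h4 := mul_le_mul_of_nonneg_left h2 hC0.le
    have h5 : C * (δ * E + (2 * δ + 1 / (2 * δ ^ 3))) = t * E + D := by
      rw [hD, mul_add, ← mul_assoc, hδ, mul_div_cancel₀ _ hC0.ne']
    rw [h5] at h4
    linarith
  have hFt : F t = 1 / (S * (1 + t)) := rfl
  have hpos : 0 < S * (1 + t) := by positivity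
  have h6 : F t * L ≤ E + D := by
    rw [hFt, one_div, inv_mul_le_iff₀ hpos]
    refine h3.trans ?_
    have : S * ((1 + t) * E + D) = S * (1 + t) * E + S * D := by ring
    rw [this]
    have h7 : S * D ≤ S * (1 + t) * D := by
      have : 0 ≤ S * t * D := by positivity
      nlinarith
    nlinarith
  have hLR : 2 * D / ε < L := hL₀.trans_le (by exact_mod_cast hL)
  have h8 : D < ε / 2 * L := by
    rw [div_lt_iff₀ hε] at hLR
    linarith
  rw [← hF0]
  have hL0 : (0 : ℝ) ≤ L := Nat.cast_nonneg L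
  nlinarith [mul_le_mul_of_nonneg_right ht.le hL0]

/-- independent rows give a common recurrence -/
lemma rec_of_indep {n : ℕ} (a : Fin n → ℕ → ℚ) (L l M : ℕ) (hL : L = l + M)
    (h : LinearIndependent ℚ (fun r : Fin n × Fin l => fun j : Fin M => a r.1 (r.2 + 1 + j))) :
    ∃ c : ℕ → ℚ, ∀ (s : Fin n) (i : ℕ), 1 ≤ i → i + M ≤ L →
      a s (i + M) = ∑ t ∈ range M, c t * a s (i + t) := by
  set A : Matrix (Fin n × Fin l) (Fin M) ℚ := Matrix.of fun r j => a r.1 (r.2 + 1 + j) with hA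
  have hli : LinearIndependent ℚ A.row := h
  have hrank := hli.rank_matrix
  have hsurj : LinearMap.range A.mulVecLin = ⊤ := by
    apply Submodule.eq_top_of_finrank_eq
    rw [Module.finrank_fintype_fun_eq_card]
    exact hrank
  have hmem : (fun r : Fin n × Fin l => a r.1 (r.2 + 1 + M)) ∈ LinearMap.range A.mulVecLin := by
    rw [hsurj]; exact Submodule.mem_top
  obtain ⟨v, hv⟩ := hmem
  refine ⟨fun j => if h : j < M then v ⟨j, h⟩ else 0, fun s i h1 h2 => ?_⟩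
  have h3 := congrFun hv (s, ⟨i - 1, by omega⟩)
  rw [Matrix.mulVecLin_apply, Matrix.mulVec, dotProduct] at h3
  simp only [hA, Matrix.of_apply] at h3
  rw [show i - 1 + 1 + M = i + M by omega] at h3
  rw [← h3, Finset.sum_range]
  refine Finset.sum_congr rfl fun j _ => ?_
  simp only [j.2, dif_pos]
  rw [show i - 1 + 1 + (j : ℕ) = i + j by omega]
  ring

/-- no relation between the digit polynomials gives independent rows -/
lemma indep_of_noRel {n : ℕ} (b : ℕ) (x : Fin n → ℝ) (l M : ℕ) (hl : 1 ≤ l)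
    (h : ∀ (g : ℚ[X]) (f : Fin n → ℚ[X]), g.natDegree ≤ l - 1 → (∀ s, (f s).natDegree ≤ l - 1) →
      X ^ (l + M) ∣ g + ∑ s, f s * Pool.Agent.W472.AC.digitPoly b (x s) (l + M - 1) → f = 0) :
    LinearIndependent ℚ (fun r : Fin n × Fin l => fun j : Fin M =>
      ((digit b (x r.1) (r.2 + 1 + j) : ℤ) : ℚ)) := by
  classical
  rw [Fintype.linearIndependent_iff]
  intro g hg
  -- the polynomials
  set f : Fin n → ℚ[X] := fun s => ∑ i : Fin l, C (g (s, i)) * X ^ (l - 1 - (i : ℕ)) with hf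
  have hfd : ∀ s, (f s).natDegree ≤ l - 1 := by
    intro s
    refine natDegree_sum_le_of_forall_le _ _ fun i _ => ?_
    exact (natDegree_C_mul_X_pow_le _ _).trans (Nat.sub_le _ _)
  have hfc : ∀ s (i : Fin l), (f s).coeff (l - 1 - (i : ℕ)) = g (s, i) := by
    intro s i
    simp only [hf, finsetSum_coeff, coeff_C_mul, coeff_X_pow]
    rw [Finset.sum_eq_single i]
    · simp
    · intro i' _ hi'
      rw [if_neg, mul_zero]
      intro h1
      apply hi'
      apply Fin.ext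
      omega
    · intro h1
      exact absurd (mem_univ _) h1
  set P : ℚ[X] := ∑ s, f s * Pool.Agent.W472.AC.digitPoly b (x s) (l + M - 1) with hP
  have hdig : ∀ s N, (Pool.Agent.W472.AC.digitPoly b (x s) (l + M - 1)).coeff N =
      if 1 ≤ N ∧ N ≤ l + M - 1 then ((digit b (x s) N : ℤ) : ℚ) else 0 := by
    intro s N
    unfold Pool.Agent.W472.AC.digitPoly
    simp only [finsetSum_coeff, coeff_C_mul, coeff_X_pow]
    by_cases hN : 1 ≤ N ∧ N ≤ l + M - 1
    · rw [if_pos hN, Finset.sum_eq_single N]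
      · simp [Pool.Agent.W472.AC.digit, digit]
      · intro i _ hi
        rw [if_neg (Ne.symm hi), mul_zero]
      · intro h1
        rw [mem_Icc] at h1
        exact absurd hN h1
    · rw [if_neg hN]
      refine Finset.sum_eq_zero fun i hi => ?_
      rw [mem_Icc] at hi
      rw [if_neg, mul_zero]
      rintro rfl
      exact hN hi
  have hcoef : ∀ N, l ≤ N → N < l + M → P.coeff N = 0 := by
    intro N h1 h2
    have h3 := congrFun hg ⟨N - l, by omega⟩
    rw [Finset.sum_apply] at h3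
    simp only [Pi.smul_apply, smul_eq_mul, Pi.zero_apply] at h3
    rw [Fintype.sum_prod_type] at h3
    rw [hP, finsetSum_coeff, ← h3]
    refine Finset.sum_congr rfl fun s _ => ?_
    simp only [hf, Finset.sum_mul, finsetSum_coeff]
    refine Finset.sum_congr rfl fun i _ => ?_
    rw [mul_assoc, coeff_C_mul, coeff_X_pow_mul', if_pos (by omega), hdig, if_pos (by omega)]
    rw [show N - (l - 1 - (i : ℕ)) = (i : ℕ) + 1 + (N - l) by omega]
  have hX : X ^ (l + M) ∣ (-∑ N ∈ range l, C (P.coeff N) * X ^ N) + P := by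
    rw [X_pow_dvd_iff]
    intro d hd
    rw [coeff_add, coeff_neg, finsetSum_coeff]
    simp only [coeff_C_mul, coeff_X_pow]
    by_cases h1 : d < l
    · rw [Finset.sum_eq_single d]
      · simp
      · intro i _ hi
        rw [if_neg (Ne.symm hi), mul_zero]
      · intro h2
        exact absurd (mem_range.2 h1) h2
    · rw [hcoef d (by omega) hd, add_zero, neg_eq_zero]
      refine Finset.sum_eq_zero fun i hi => ?_
      rw [mem_range] at hi
      rw [if_neg (by omega), mul_zero]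
  have h0 := h (-∑ N ∈ range l, C (P.coeff N) * X ^ N) f (by
    rw [natDegree_neg]
    refine natDegree_sum_le_of_forall_le _ _ fun i hi => ?_
    rw [mem_range] at hi
    exact (natDegree_C_mul_X_pow_le _ _).trans (by omega)) hfd hX
  rintro ⟨s, i⟩
  rw [← hfc s i, h0]
  simp

/-- **Asymptotic upper bound.** -/
theorem upper_asymp {n : ℕ} (hn : 1 ≤ n) (x : Fin n → ℝ) (hx : NormalMeasure x) (ε : ℝ)
    (hε : 0 < ε) : ∃ L₀ : ℕ, ∀ L : ℕ, L₀ ≤ L → ∀ b : ℕ, 2 ≤ b → ∀ k : ℕ,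
      (commonOrder b x k L : ℝ) ≤ (n / ((n : ℝ) + 1) + ε) * L := by
  have hn0 : (0 : ℝ) < n := by exact_mod_cast hn
  have hn1 : (1 : ℝ) ≤ n := by exact_mod_cast hn
  by_cases hbig : 1 / ((n : ℝ) + 1) ≤ ε / 2
  · refine ⟨0, fun L _ b hb k => ?_⟩
    have h1 : (commonOrder b x k L : ℝ) ≤ L := by exact_mod_cast commonOrder_le_self hb x k L
    have h2 : (n : ℝ) / (n + 1) = 1 - 1 / (n + 1) := by field_simp; ring
    rw [h2]
    have hL0 : (0 : ℝ) ≤ L := Nat.cast_nonneg L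
    nlinarith
  push Not at hbig
  obtain ⟨θ, hθ⟩ : ∃ θ : ℝ, θ = 1 / ((n : ℝ) + 1) - ε / 2 := ⟨_, rfl⟩
  have hθ0 : 0 < θ := by rw [hθ]; linarith
  have hθ1 : θ * (n + 1) = 1 - ε * (n + 1) / 2 := by
    rw [hθ]; field_simp
  have hθle : θ ≤ 1 := by
    have h1 : 1 / ((n : ℝ) + 1) ≤ 1 := by rw [div_le_one (by linarith)]; linarith
    rw [hθ]; linarith
  obtain ⟨c, hc, hM⟩ := hx (ε * (n + 1) / 4) (by positivity)
  have hlt : θ * (1 + (n + ε * (n + 1) / 4)) < 1 := by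
    have h1 : θ * (1 + (n + ε * (n + 1) / 4)) = θ * (n + 1) + θ * (ε * (n + 1) / 4) := by ring
    have h2 : θ * (ε * (n + 1) / 4) ≤ 1 * (ε * (n + 1) / 4) :=
      mul_le_mul_of_nonneg_right hθle (by positivity)
    have h3 : 0 < ε * (n + 1) := by positivity
    rw [h1, hθ1]
    linarith
  obtain ⟨L₁, hL₁⟩ := eventually_atTop.1 (Pool.Agent.W472.AC.lin_lower x (n + ε * (n + 1) / 4) c
    (by positivity) hc hM θ hθ0.le hlt)
  obtain ⟨L₂, hL₂⟩ := exists_nat_gt (2 / ε)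
  refine ⟨max (L₁ + 1) (L₂ + 1), fun L hL b hb k => ?_⟩
  have hLa : L₁ + 1 ≤ L := (le_max_left _ _).trans hL
  have hLb : L₂ + 1 ≤ L := (le_max_right _ _).trans hL
  have hLR : (2 : ℝ) / ε < L := hL₂.trans (by exact_mod_cast (by omega : L₂ < L))
  have hL1 : 1 ≤ L := by omega
  have hLm : ((L - 1 : ℕ) : ℝ) = L - 1 := by rw [Nat.cast_sub hL1]; push_cast; ring
  obtain ⟨l, hl⟩ : ∃ l : ℕ, l = ⌊θ * ((L - 1 : ℕ) : ℝ)⌋₊ + 1 := ⟨_, rfl⟩
  have hl1 : 1 ≤ l := by omega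
  have hlf : ((l - 1 : ℕ) : ℝ) ≤ θ * ((L - 1 : ℕ) : ℝ) := by
    rw [hl, Nat.add_sub_cancel]
    exact Nat.floor_le (by positivity)
  have hlg : θ * ((L - 1 : ℕ) : ℝ) < l := by
    rw [hl]
    push_cast
    exact Nat.lt_floor_add_one _
  have hlL : l ≤ L := by
    have h1 : ((l - 1 : ℕ) : ℝ) ≤ ((L - 1 : ℕ) : ℝ) := by
      refine hlf.trans ?_
      have : (0 : ℝ) ≤ ((L - 1 : ℕ) : ℝ) := Nat.cast_nonneg _
      nlinarith
    have h2 : l - 1 ≤ L - 1 := by exact_mod_cast h1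
    omega
  obtain ⟨M, hMM⟩ : ∃ M, L = l + M := ⟨L - l, by omega⟩
  have hno := indep_of_noRel b x l M hl1 (fun g f hg hf hX => by
    have h1 := hL₁ (L - 1) (by omega) b hb (l - 1) hlf g f hg hf (by
      rw [show L - 1 + 1 = l + M by omega, show L - 1 = l + M - 1 by omega]
      exact hX)
    exact h1.2)
  obtain ⟨c0, hc0⟩ := rec_of_indep (fun s i => ((digit b (x s) i : ℤ) : ℚ)) L l M hMM hno
  have hle : commonOrder b x k L ≤ M := commonOrder_le hb x k L M ⟨c0, hc0⟩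
  have h5 : (commonOrder b x k L : ℝ) ≤ M := by exact_mod_cast hle
  have h6 : (L : ℝ) = l + M := by exact_mod_cast hMM
  have h7 : (n : ℝ) / (n + 1) = 1 - 1 / (n + 1) := by field_simp; ring
  rw [hLm] at hlg
  rw [h7]
  have h8 : 2 < ε * L := by
    rw [div_lt_iff₀ hε] at hLR
    linarith
  have h9 : 1 / ((n : ℝ) + 1) = θ + ε / 2 := by rw [hθ]; ring
  rw [h9]
  nlinarith

/-- The lower bound with an exponent `μ` above the optimal one. -/
theorem lower_mu {n : ℕ} (hn : 1 ≤ n) (x : Fin n → ℝ) (hx : NormalMeasure x) (μ : ℝ)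
    (hμ : 1 + 1 / (n : ℝ) < μ) :
    ∃ C : ℝ, 0 < C ∧ ∀ b : ℕ, 2 ≤ b → ∀ k L : ℕ,
      (L : ℝ) ≤ (∑ i ∈ range (k + 1), μ ^ (i + 1)) *
        (commonOrder b x k L + C * Real.sqrt (((commonOrder b x k L : ℝ) + 1) *
          Real.log ((commonOrder b x k L : ℝ) + 2))) := by
  have hn0 : (0 : ℝ) < n := by exact_mod_cast hn
  have h1 : (n : ℝ) + 1 < μ * n := by
    have h2 := mul_lt_mul_of_pos_right hμ hn0
    have h3 : (1 + 1 / (n : ℝ)) * n = n + 1 := by field_simp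
    linarith
  obtain ⟨c, hc, hM⟩ := hx (μ * n - 1 - n) (by linarith)
  obtain ⟨C, hC0, hC⟩ := lower hn x _ c (by linarith) hc hM
  have h4 : ((n : ℝ) + (μ * n - 1 - n) + 1) / n = μ := by field_simp; ring
  rw [h4] at hC
  exact ⟨C, hC0, hC⟩

/-- **Two-sided bound.** -/
theorem two_sided {n : ℕ} (hn : 1 ≤ n) (x : Fin n → ℝ) (hx : NormalMeasure x) (ε : ℝ)
    (hε : 0 < ε) : ∃ L₀ : ℕ, ∀ L : ℕ, L₀ ≤ L → ∀ b : ℕ, 2 ≤ b →
      |(commonOrder b x 0 L : ℝ) - n / ((n : ℝ) + 1) * L| ≤ ε * L := by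
  obtain ⟨L₁, h1⟩ := lower_asymp hn x hx 0 ε hε
  obtain ⟨L₂, h2⟩ := upper_asymp hn x hx ε hε
  refine ⟨max L₁ L₂, fun L hL b hb => ?_⟩
  have h3 := h1 L ((le_max_left _ _).trans hL) b hb
  have h4 := h2 L ((le_max_right _ _).trans hL) b hb 0
  have hn0 : (0 : ℝ) < n := by exact_mod_cast hn
  have h5 : 1 / (((n : ℝ) + 1) * ((1 + 1 / n) ^ (0 + 1) - 1)) = n / (n + 1) := by
    rw [zero_add, pow_one]
    field_simp
    ring
  rw [h5] at h3
  rw [abs_le]
  constructor <;> linarith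

end Pool.Agent.TH768.DG
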