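import Pool.Agent.W472.AC.Joint
import Pool.Agent.W47.JL.Single

/-!
# Transference: from linear forms to simultaneous approximation
-/

set_option autoImplicit false

namespace Pool.Agent.TH768.DG

open Finset

/-- Pigeonhole: a short integer vector orthogonal to `p` modulo `q`. -/
lemma exists_short {m : ℕ} (q N : ℕ) (hq : 1 ≤ q) (hN : q < (N + 1) ^ m) (p : Fin m → ℤ) :
    ∃ v : Fin m → ℤ, v ≠ 0 ∧ (∀ s, |v s| ≤ N) ∧ (q : ℤ) ∣ ∑ s, v s * p s := by
  classical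
  have : NeZero q := ⟨by omega⟩
  obtain ⟨f, g, hfg, he⟩ := Fintype.exists_ne_map_eq_of_card_lt
    (fun f : Fin m → Fin (N + 1) => ((∑ s, ((f s : ℕ) : ℤ) * p s : ℤ) : ZMod q)) (by
      rw [ZMod.card, Fintype.card_fun, Fintype.card_fin, Fintype.card_fin]
      exact hN)
  refine ⟨fun s => ((f s : ℕ) : ℤ) - ((g s : ℕ) : ℤ), ?_, fun s => ?_, ?_⟩
  · intro h
    apply hfg
    funext s
    have h1 := congrFun h s
    simp only [Pi.zero_apply] at h1
    exact Fin.ext (by omega)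
  · have h1 := (f s).2
    have h2 := (g s).2
    show |((f s : ℕ) : ℤ) - ((g s : ℕ) : ℤ)| ≤ N
    rw [abs_le]
    constructor <;> omega
  · rw [← ZMod.intCast_zmod_eq_zero_iff_dvd]
    have e : (∑ s, (((f s : ℕ) : ℤ) - ((g s : ℕ) : ℤ)) * p s) =
        (∑ s, ((f s : ℕ) : ℤ) * p s) - ∑ s, ((g s : ℕ) : ℤ) * p s := by
      rw [← Finset.sum_sub_distrib]
      exact Finset.sum_congr rfl fun s _ => by ring
    rw [e, Int.cast_sub, sub_eq_zero]
    exact he

/-- **Transference.** -/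
theorem transfer {m : ℕ} (hm : 1 ≤ m) (x : Fin m → ℝ) (w c : ℝ) (hw : (m : ℝ) ≤ w) (hc : 0 < c)
    (hx : Pool.Agent.W472.AC.MeasL x w c) :
    ∃ c' : ℝ, 0 < c' ∧ Pool.Agent.W47.JL.Meas m x ((w + 1) / m) c' 0 := by
  classical
  have hm0 : (0 : ℝ) < m := by exact_mod_cast hm
  have hm1 : (1 : ℝ) ≤ m := by exact_mod_cast hm
  obtain ⟨S, hS⟩ : ∃ S : ℝ, S = 1 + ∑ s, |x s| + m := ⟨_, rfl⟩
  have hsx : 0 ≤ ∑ s, |x s| := Finset.sum_nonneg fun s _ => abs_nonneg _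
  have hS1 : 1 ≤ S := by rw [hS]; linarith
  have hS0 : 0 < S := by linarith
  refine ⟨min 1 (c / (S ^ w * m)), by positivity, fun q hq p => ?_⟩
  have hqR : (1 : ℝ) ≤ q := by exact_mod_cast hq
  have hq0 : (0 : ℝ) < q := by linarith
  rw [Real.rpow_zero, mul_one]
  set e : ℝ := (w + 1) / m - 1 with he
  have he0 : 0 ≤ e := by
    rw [he, sub_nonneg, le_div_iff₀ hm0]
    linarith
  have hqe : 1 ≤ (q : ℝ) ^ e := Real.one_le_rpow hqR he0
  by_cases hbig : ∃ j, 1 ≤ |(q : ℝ) * x j - p j|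
  · obtain ⟨j, hj⟩ := hbig
    refine ⟨j, (min_le_left _ _).trans ?_⟩
    nlinarith
  push Not at hbig
  -- the maximal error
  have hne : (univ : Finset (Fin m)).Nonempty := ⟨⟨0, by omega⟩, mem_univ _⟩
  obtain ⟨j, -, hj⟩ := Finset.exists_max_image univ (fun j => |(q : ℝ) * x j - p j|) hne
  refine ⟨j, (min_le_right _ _).trans ?_⟩
  set δ : ℝ := |(q : ℝ) * x j - p j| with hδ
  have hδ0 : 0 ≤ δ := abs_nonneg _
  set Q : ℝ := (q : ℝ) ^ (1 / (m : ℝ)) with hQ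
  have hQ1 : 1 ≤ Q := Real.one_le_rpow hqR (by positivity)
  have hQ0 : 0 < Q := by linarith
  have hQm : Q ^ m = q := by
    rw [hQ, ← Real.rpow_natCast, ← Real.rpow_mul hq0.le]
    rw [one_div, inv_mul_cancel₀ hm0.ne', Real.rpow_one]
  obtain ⟨v, hv0, hvN, hvq⟩ := exists_short q ⌊Q⌋₊ hq (by
    have h1 : Q < (⌊Q⌋₊ : ℝ) + 1 := Nat.lt_floor_add_one Q
    have h2 : (q : ℝ) < ((⌊Q⌋₊ : ℝ) + 1) ^ m := by
      rw [← hQm]
      exact pow_lt_pow_left₀ h1 hQ0.le (by omega)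
    exact_mod_cast h2) p
  have hvQ : ∀ s, |(v s : ℝ)| ≤ Q := by
    intro s
    have h1 : |(v s : ℝ)| ≤ (⌊Q⌋₊ : ℝ) := by exact_mod_cast hvN s
    exact h1.trans (Nat.floor_le hQ0.le)
  obtain ⟨u', hu'⟩ := hvq
  have hu'R : (∑ s, (v s : ℝ) * p s) = q * u' := by exact_mod_cast hu'
  have hval : |(((-u' : ℤ) : ℝ)) + ∑ s, (v s : ℝ) * x s| ≤ m * Q * δ / q := by
    have e1 : (((-u' : ℤ) : ℝ)) + ∑ s, (v s : ℝ) * x s =
        (∑ s, (v s : ℝ) * (q * x s - p s)) / q := by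
      rw [eq_div_iff hq0.ne']
      have e2 : ∑ s, (v s : ℝ) * (q * x s - p s) =
          q * (∑ s, (v s : ℝ) * x s) - ∑ s, (v s : ℝ) * p s := by
        rw [Finset.mul_sum, ← Finset.sum_sub_distrib]
        exact Finset.sum_congr rfl fun s _ => by ring
      rw [e2, hu'R]
      push_cast
      ring
    rw [e1, abs_div, abs_of_pos hq0]
    apply div_le_div_of_nonneg_right _ hq0.le
    calc |∑ s, (v s : ℝ) * (q * x s - p s)| ≤ ∑ s, |(v s : ℝ) * (q * x s - p s)| :=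
          Finset.abs_sum_le_sum_abs _ _
      _ ≤ ∑ _s : Fin m, Q * δ := by
          refine Finset.sum_le_sum fun s _ => ?_
          rw [abs_mul]
          exact mul_le_mul (hvQ s) (hj s (mem_univ s)) (abs_nonneg _) hQ0.le
      _ = m * Q * δ := by
          rw [Finset.sum_const, Finset.card_univ, Fintype.card_fin, nsmul_eq_mul]
          ring
  have hu'H : |(((-u' : ℤ) : ℝ))| ≤ S * Q := by
    have h1 : |∑ s, (v s : ℝ) * x s| ≤ Q * ∑ s, |x s| := by
      rw [Finset.mul_sum]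
      refine (Finset.abs_sum_le_sum_abs _ _).trans (Finset.sum_le_sum fun s _ => ?_)
      rw [abs_mul]
      exact mul_le_mul_of_nonneg_right (hvQ s) (abs_nonneg _)
    have h2 : m * Q * δ / q ≤ m * Q := by
      rw [div_le_iff₀ hq0]
      have : δ ≤ q := (hbig j).le.trans hqR
      have hmQ : 0 ≤ m * Q := by positivity
      nlinarith
    calc |(((-u' : ℤ) : ℝ))| =
          |((((-u' : ℤ) : ℝ)) + ∑ s, (v s : ℝ) * x s) - ∑ s, (v s : ℝ) * x s| := by
          rw [add_sub_cancel_right]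
      _ ≤ m * Q * δ / q + Q * ∑ s, |x s| := (abs_sub _ _).trans (add_le_add hval h1)
      _ ≤ S * Q := by
          rw [hS]
          nlinarith
  have hM := hx (-u') v (Or.inr hv0) (S * Q) (by nlinarith) hu'H (fun s => (hvQ s).trans (by
    nlinarith))
  have h5 : c ≤ (S * Q) ^ w * (m * Q * δ / q) :=
    hM.trans (mul_le_mul_of_nonneg_left hval (by positivity))
  rw [div_le_iff₀ (by positivity)]
  refine h5.trans (le_of_eq ?_)
  rw [Real.mul_rpow hS0.le hQ0.le]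
  have h6 : Q ^ w * Q = (q : ℝ) ^ (e + 1) := by
    rw [← Real.rpow_add_one hQ0.ne', hQ, ← Real.rpow_mul hq0.le]
    congr 1
    rw [he]
    field_simp
    ring
  have h7 : (q : ℝ) ^ (e + 1) = (q : ℝ) ^ e * q := Real.rpow_add_one hq0.ne' e
  calc S ^ w * Q ^ w * (m * Q * δ / q) = S ^ w * m * (Q ^ w * Q) * δ / q := by ring
    _ = S ^ w * m * ((q : ℝ) ^ e * q) * δ / q := by rw [h6, h7]
    _ = (q : ℝ) ^ e * δ * (S ^ w * m) := by field_simp

end Pool.Agent.TH768.DG
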